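import Pool.Agent.MWFE.StmtsB

/-! Squad MWFE, row CL1 (helper76), problem MP_23468a_al -/

set_option autoImplicit false

namespace Pool.Agent.MWFE.H76

open Pool.Agent.Helper14_MV Pool.Agent.Helper2_MV Pool.Agent.MVD
open Pool.Agent.MWE (Can XX fxy dxy dx dy up cp L4 pr Xs xl isx Fs nd nr)
open Pool.Agent.MWGR (cb)

/-! ### words with blocks -/

theorem bw_cons (r : ℕ) (R : List ℕ) (B : ℕ → List ℕ) :
    Bw (r :: R) B = B r ++ ((3 * r + 2) :: Bw R B) := by
  unfold Bw
  rw [List.flatMap_cons, List.append_assoc, List.singleton_append]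

theorem bw_app (R S : List ℕ) (B : ℕ → List ℕ) : Bw (R ++ S) B = Bw R B ++ Bw S B := by
  unfold Bw
  rw [List.flatMap_append]

theorem bw_congr (R : List ℕ) (B B' : ℕ → List ℕ) (h : ∀ r ∈ R, B r = B' r) :
    Bw R B = Bw R B' := by
  induction R with
  | nil => rfl
  | cons r R ih =>
    rw [bw_cons, bw_cons, h r List.mem_cons_self, ih (fun q hq => h q (List.mem_cons_of_mem _ hq))]

theorem up_eq (B : ℕ → List ℕ) (r : ℕ) (D : List ℕ) : up B r D r = D := by
  unfold up
  rw [if_pos rfl]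

theorem up_ne (B : ℕ → List ℕ) (r q : ℕ) (D : List ℕ) (h : q ≠ r) : up B r D q = B q := by
  unfold up
  rw [if_neg h]

theorem up_self (B : ℕ → List ℕ) (r : ℕ) : up B r (B r) = B := by
  funext q
  unfold up
  split_ifs with h
  · rw [h]
  · rfl

theorem split_up (R1 R2 : List ℕ) (r : ℕ) (B : ℕ → List ℕ) (D e : List ℕ) (h1 : r ∉ R1)
    (h2 : r ∉ R2) : Bw (R1 ++ r :: R2) (up B r D) ++ e =
      Bw R1 B ++ (D ++ ((3 * r + 2) :: (Bw R2 B ++ e))) := by
  rw [bw_app, bw_cons, up_eq,
    bw_congr R1 (up B r D) B (fun q hq => up_ne B r q D (fun h => h1 (h ▸ hq))),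
    bw_congr R2 (up B r D) B (fun q hq => up_ne B r q D (fun h => h2 (h ▸ hq)))]
  simp only [List.append_assoc, List.cons_append]

theorem pz_ne (n z : ℕ) (B : ℕ → List ℕ) (r : ℕ) (h : r ≠ 0) : pz n z B r = B r := by
  unfold pz
  exact up_ne B 0 r _ h

theorem pz_up (n z : ℕ) (B : ℕ → List ℕ) (r : ℕ) (D : List ℕ) (h : r ≠ 0) :
    pz n z (up B r D) = up (pz n z B) r D := by
  funext q
  by_cases hq : q = r
  · subst hq
    rw [pz_ne n z _ q h, up_eq, up_eq]
  · rw [up_ne _ r q D hq]
    unfold pz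
    by_cases h0 : q = 0
    · subst h0
      rw [up_eq, up_eq, up_ne B r 0 D (Ne.symm h)]
    · rw [up_ne _ 0 q _ h0, up_ne _ 0 q _ h0, up_ne _ r q D hq]

theorem pz_sfr (n m : ℕ) (B : ℕ → List ℕ) (h : ∀ r, SFr (B r)) :
    ∀ r, SFr (pz n (3 * m + 1) B r) := by
  intro r
  by_cases hr : r = 0
  · subst hr
    unfold pz
    rw [up_eq]
    intro c hc
    rcases List.mem_append.1 hc with h1 | h1
    · rw [List.eq_of_mem_replicate h1]
      omega
    · rcases List.mem_append.1 h1 with h1 | h1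
      · exact h 0 c h1
      · rw [List.eq_of_mem_replicate h1]
        omega
  · rw [pz_ne _ _ _ _ hr]
    exact h r

/-! ### counting -/

theorem cb_split (Y1 Y2 : List ℕ) (v h : ℕ) (h1 : v ∉ Y1) :
    cb (Y1 ++ v :: Y2) h v = Y1.count h := by
  unfold cb
  have e : (Y1 ++ v :: Y2).takeWhile (fun c => decide (c ≠ v)) = Y1 := by
    rw [List.takeWhile_append_of_pos]
    · simp
    · intro a ha
      have : a ≠ v := fun h => h1 (h ▸ ha)
      simpa using this
  rw [e]

theorem one_split (Y : List ℕ) (v : ℕ) (h : Y.count v = 1) :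
    ∃ Y1 Y2, Y = Y1 ++ v :: Y2 ∧ v ∉ Y1 ∧ v ∉ Y2 := by
  obtain ⟨Y1, Y2, e⟩ := List.append_of_mem (List.count_pos_iff.1 (by rw [h]; exact one_pos) : v ∈ Y)
  refine ⟨Y1, Y2, e, ?_, ?_⟩
  · intro h1
    have h2 := List.count_pos_iff.2 h1
    rw [e, List.count_append, List.count_cons_self] at h
    omega
  · intro h1
    have h2 := List.count_pos_iff.2 h1
    rw [e, List.count_append, List.count_cons_self] at h
    omega

/-- The step when all letters of the factor are heavy, or all but one. -/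
theorem step (phx : PhxStmt) (bpx : BpxStmt) (n : ℕ) (β : FIC) (hz : Hz n β)
    (P Q Y Y' Λ : List ℕ) (hp : Y.Perm Y')
    (hQ : Qc n Y Y' Λ) (L : ℕ → Prop)
    (hL : ∀ v ∈ Y, L v → Y.count v = 1)
    (hH : ∀ v ∈ Y, ¬ L v → Hw (P ++ (Y ++ Q)) v)
    (hM : ∀ v ∈ Y, 2 ≤ (P ++ (Y ++ Q)).count v)
    (hu : ∀ v ∈ Y, L v → (∀ u ∈ Y, L u → u = v) ∧
      ∀ h ∈ Y, h ∈ Λ → ∃ G a b : List ℕ, (P = a ++ (G ++ b) ∨ Q = a ++ (G ++ b)) ∧
        Mult G (P ++ (Y ++ Q)) ∧ v ∈ G ∧ h ∈ G) :
    RR β (P ++ (Y ++ Q)) (P ++ (Y' ++ Q)) := by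
  by_cases hv : ∃ v ∈ Y, L v
  · obtain ⟨v, hvY, hvL⟩ := hv
    have h1 := hL v hvY hvL
    obtain ⟨Y1, Y2, e, n1, n2⟩ := one_split Y v h1
    have h1' : Y'.count v = 1 := by rw [← hp.count_eq v]; exact h1
    obtain ⟨Y1', Y2', e', n1', n2'⟩ := one_split Y' v h1'
    obtain ⟨hun, hG⟩ := hu v hvY hvL
    have e3 : P ++ (Y ++ Q) = P ++ (Y1 ++ v :: Y2) ++ Q := by
      rw [e]
      simp only [List.append_assoc]
    have e3' : P ++ (Y' ++ Q) = P ++ (Y1' ++ v :: Y2') ++ Q := by
      rw [e']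
      simp only [List.append_assoc]
    have hpp : (Y1 ++ Y2).Perm (Y1' ++ Y2') := by
      have h2 : (Y1 ++ v :: Y2).Perm (Y1' ++ v :: Y2') := by rw [← e, ← e']; exact hp
      have h3 := (List.perm_middle.symm.trans h2).trans List.perm_middle
      exact h3.cons_inv
    have hmem : ∀ h ∈ Y1 ++ Y2, h ∈ Y ∧ h ≠ v := by
      intro h hh
      constructor
      · rw [e]
        rcases List.mem_append.1 hh with h2 | h2
        · exact List.mem_append_left _ h2
        · exact List.mem_append_right _ (List.mem_cons_of_mem _ h2)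
      · rintro rfl
        rcases List.mem_append.1 hh with h2 | h2
        · exact n1 h2
        · exact n2 h2
    have hM' := hM v hvY
    rw [e3] at hM' ⊢
    rw [e3']
    apply bpx n β hz P Q Y1 Y2 Y1' Y2' v n1 n2 hM' hpp
    · intro h hh
      obtain ⟨a1, a2⟩ := hmem h hh
      rw [← e3]
      exact hH h a1 (fun hl => a2 (hun h a1 hl))
    · intro h hh
      obtain ⟨a1, a2⟩ := hmem h hh
      obtain ⟨-, hq⟩ := hQ v h1
      rcases hq h a2 with h4 | ⟨h4, h5⟩
      · left
        rw [← e3]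
        exact hG h a1 h4
      · right
        rw [e, e', cb_split _ _ _ _ n1, cb_split _ _ _ _ n1'] at h4 h5
        refine ⟨h4, ?_⟩
        rcases h5 with h5 | ⟨b1, b2, b3, b4⟩
        · exact Or.inl h5
        · right
          rw [List.count_append, List.count_cons_of_ne (Ne.symm a2)] at b2 b4
          exact ⟨b1, by omega, b3, by omega⟩
  · refine phx n β hz P Q Y Y' hp (fun h hh => hH h hh (fun hl => hv ⟨h, hh, hl⟩))

theorem nodup_of (m : ℕ) (R : List ℕ) (h : R.Perm (List.range (m + 2))) : R.Nodup :=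
  h.nodup_iff.2 List.nodup_range

theorem bfr_asym (R : List ℕ) (h : R.Nodup) (a b : ℕ) (h1 : Bfr R a b) (h2 : Bfr R b a) :
    False := by
  obtain ⟨A, B, C, e⟩ := h1
  obtain ⟨A', B', C', e'⟩ := h2
  have n1 : ¬ (a = b) := by
    rintro rfl
    rw [e] at h
    have := (List.nodup_append.1 h).2.1
    exact (List.nodup_cons.1 this).1 (by simp)
  have h3 : [a, b].Sublist R := by
    rw [e]
    refine List.Sublist.trans ?_ (List.sublist_append_right _ _)
    refine List.Sublist.cons_cons _ ?_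
    exact List.singleton_sublist.2 (by simp)
  have h4 : [b, a].Sublist R := by
    rw [e']
    refine List.Sublist.trans ?_ (List.sublist_append_right _ _)
    refine List.Sublist.cons_cons _ ?_
    exact List.singleton_sublist.2 (by simp)
  have h5 : R.idxOf a < R.idxOf b := by
    rw [e]
    have ha : a ∉ A := by
      rw [e] at h
      intro ha
      exact (List.nodup_append.1 h).2.2 a ha a List.mem_cons_self rfl
    have hb : b ∉ A := by
      rw [e] at h
      intro hb
      exact (List.nodup_append.1 h).2.2 b hb b (by simp) rfl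
    rw [List.idxOf_append_of_notMem ha, List.idxOf_append_of_notMem hb, List.idxOf_cons_self,
      List.idxOf_cons_ne _ n1]
    omega
  have h6 : R.idxOf b < R.idxOf a := by
    rw [e']
    have ha : a ∉ A' := by
      rw [e'] at h
      intro ha
      exact (List.nodup_append.1 h).2.2 a ha a (by simp) rfl
    have hb : b ∉ A' := by
      rw [e'] at h
      intro hb
      exact (List.nodup_append.1 h).2.2 b hb b List.mem_cons_self rfl
    rw [List.idxOf_append_of_notMem ha, List.idxOf_append_of_notMem hb, List.idxOf_cons_self,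
      List.idxOf_cons_ne _ (Ne.symm n1)]
    omega
  omega

theorem cl1 (phx : PhxStmt) (bpx : BpxStmt) (baz : BazStmt) (hwz : HwzStmt) : Cl1Stmt := by
  intro n β m R c X B e st hX hB he hr α Y Y' γ Λ h1 hp hQ hRt
  have hnd := nodup_of m R st.pR
  set A := pz n (3 * m + 1) B with hA
  have G : Bz m R c A e := baz n β m R c X A e st.hz st.can st.pR st.b01 hX
    (pz_sfr n m B hB) he hr
  have hA1 : A 1 = α ++ (Y ++ γ) := by rw [hA, pz_ne _ _ _ _ one_ne_zero, h1]
  rw [pz_up _ _ _ _ _ one_ne_zero, ← hA]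
  refine β.trans hr ?_
  -- the decomposition of R
  have hm1 : (1 : ℕ) ∈ R := st.pR.mem_iff.2 (List.mem_range.2 (by omega))
  have main : ∀ R1 R2 : List ℕ, R = R1 ++ 1 :: R2 →
      (∀ v ∈ Y, (v = 0 ∨ v = 3 ∨ ∃ d < m, v = 3 * d + 1) →
        (∀ u ∈ Y, (u = 0 ∨ u = 3 ∨ ∃ d < m, u = 3 * d + 1) → u = v) ∧ v ∈ Λ ∧
          ∃ r' ∈ R2, ∃ a b, A r' = a ++ (Λ ++ b)) →
      RR β (Bw R A ++ e) (Bw R (up A 1 (α ++ (Y' ++ γ))) ++ e) := by
    intro R1 R2 hR hu
    have n1 : (1 : ℕ) ∉ R1 := by
      intro h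
      rw [hR] at hnd
      exact (List.nodup_append.1 hnd).2.2 1 h 1 List.mem_cons_self rfl
    have n2 : (1 : ℕ) ∉ R2 := by
      intro h
      rw [hR] at hnd
      exact (List.nodup_cons.1 (List.nodup_append.1 hnd).2.1).1 h
    have ew : Bw R A ++ e = (Bw R1 A ++ α) ++ (Y ++ (γ ++ (3 * 1 + 2) :: (Bw R2 A ++ e))) := by
      conv_lhs => rw [← up_self A 1, hR]
      rw [split_up R1 R2 1 A _ e n1 n2, hA1]
      simp only [List.append_assoc, List.cons_append]
    have ew' : Bw R (up A 1 (α ++ (Y' ++ γ))) ++ e =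
        (Bw R1 A ++ α) ++ (Y' ++ (γ ++ (3 * 1 + 2) :: (Bw R2 A ++ e))) := by
      conv_lhs => rw [hR]
      rw [split_up R1 R2 1 A _ e n1 n2]
      simp only [List.append_assoc, List.cons_append]
    have hYw : ∀ v ∈ Y, v ∈ Bw R A ++ e := by
      intro v hv
      rw [ew]
      exact List.mem_append_right _ (List.mem_append_left _ hv)
    have hY1 : ∀ v ∈ Y, v ∈ A 1 := by
      intro v hv
      rw [hA1]
      exact List.mem_append_right _ (List.mem_append_left _ hv)
    have hmu : ∀ v ∈ Y, 2 ≤ (Bw R A ++ e).count v := fun v hv =>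
      G.mu v (hYw v hv) (G.sf 1 v (hY1 v hv))
    rw [ew']
    have hE := ew
    rw [ew] at hYw hmu ⊢
    refine step phx bpx n β st.hz _ _ Y Y' Λ hp hQ
      (fun v => v = 0 ∨ v = 3 ∨ ∃ d < m, v = 3 * d + 1) ?_ ?_ hmu ?_
    · intro v hv hl
      have c1 : (A 1).count v = 1 := by
        rcases hl with rfl | rfl | ⟨d, hd, rfl⟩
        · exact G.x1
        · exact G.y1
        · rw [G.li d hd 1 hm1, if_pos (Or.inl rfl)]
      have c2 := List.count_pos_iff.2 hv
      rw [hA1, List.count_append, List.count_append] at c1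
      omega
    · intro v hv hl
      have hl' : v ≠ 0 ∧ v ≠ 3 ∧ ¬ ∃ d < m, v = 3 * d + 1 := by
        refine ⟨fun h => hl (Or.inl h), fun h => hl (Or.inr (Or.inl h)), fun h => hl (Or.inr (Or.inr h))⟩
      rw [← hE]
      have hvw : v ∈ Bw R A ++ e := by rw [hE]; exact hYw v hv
      apply hwz m R c A e G v hvw
      rcases G.ct v hvw (G.sf 1 v (hY1 v hv)) with h | h | h | h
      · exact absurd h hl'.1
      · exact absurd h hl'.2.1
      · exact Or.inl h
      · rcases st.can.lo v h with h5 | h5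
        · exact absurd h5 hl'.2.2
        · exact Or.inr ⟨h5.1, h5.2.1⟩
    · intro v hv hl
      obtain ⟨hun, hvL, r', hr', a, b, hab⟩ := hu v hv hl
      refine ⟨hun, fun h hh hhL => ?_⟩
      obtain ⟨R3, R4, hR34⟩ := List.append_of_mem hr'
      refine ⟨Λ, γ ++ (3 * 1 + 2) :: (Bw R3 A ++ a), b ++ ((3 * r' + 2) :: (Bw R4 A ++ e)),
        Or.inr ?_, ?_, hvL, hhL⟩
      · rw [hR34, bw_app, bw_cons, hab]
        simp only [List.append_assoc, List.cons_append]
      · intro u hu'
        rw [← hE]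
        have hr1 : r' ∈ R := by
          rw [hR]
          exact List.mem_append_right _ (List.mem_cons_of_mem _ hr')
        have hu1 : u ∈ A r' := by
          rw [hab]
          exact List.mem_append_right _ (List.mem_append_left _ hu')
        have hu2 : u ∈ Bw R A := by
          unfold Bw
          exact List.mem_flatMap.2 ⟨r', hr1, List.mem_append_left _ hu1⟩
        exact G.mu u (List.mem_append_left _ hu2) (G.sf r' u hu1)
  by_cases hex : ∃ v ∈ Y, (v = 0 ∨ v = 3 ∨ ∃ d < m, v = 3 * d + 1)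
  · obtain ⟨v, hv, hvl⟩ := hex
    have cnt : ∀ v ∈ Y, (v = 0 ∨ v = 3 ∨ ∃ d < m, v = 3 * d + 1) →
        Y.count v = 1 ∧ v ∉ γ ∧ v ∉ e := by
      intro v hv hl
      have c1 : (A 1).count v = 1 := by
        rcases hl with rfl | rfl | ⟨d, hd, rfl⟩
        · exact G.x1
        · exact G.y1
        · rw [G.li d hd 1 hm1, if_pos (Or.inl rfl)]
      have c2 := List.count_pos_iff.2 hv
      rw [hA1, List.count_append, List.count_append] at c1
      refine ⟨by omega, ?_, ?_⟩
      · intro h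
        have c3 := List.count_pos_iff.2 h
        omega
      · rcases hl with rfl | rfl | ⟨d, hd, rfl⟩
        · exact G.xe
        · exact G.ye
        · exact G.le d hd
    have hvL : v ∈ Λ := (hQ v (cnt v hv hvl).1).1
    rcases hRt with ⟨a, b, hab⟩ | ⟨r', hr', hbf, a, b, hab⟩ | ⟨a, b, hab⟩
    · exfalso
      apply (cnt v hv hvl).2.1
      rw [hab]
      exact List.mem_append_right _ (List.mem_append_left _ hvL)
    · have hr1 : r' ≠ 1 := by
        rintro rfl
        exact bfr_asym R hnd 1 1 hbf hbf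
      have hr0 : r' ≠ 0 := by
        rintro rfl
        exact bfr_asym R hnd 0 1 st.b01 hbf
      have hAr : A r' = a ++ (Λ ++ b) := by rw [hA, pz_ne _ _ _ _ hr0, hab]
      have key : ∀ v ∈ Y, (v = 0 ∨ v = 3 ∨ ∃ d < m, v = 3 * d + 1) →
          v ∈ Λ ∧ r' = (v - 1) / 3 + 2 ∧ ∃ d < m, v = 3 * d + 1 := by
        intro v hv hl
        have hvL : v ∈ Λ := (hQ v (cnt v hv hl).1).1
        have hvA : v ∈ A r' := by
          rw [hAr]
          exact List.mem_append_right _ (List.mem_append_left _ hvL)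
        refine ⟨hvL, ?_⟩
        rcases hl with rfl | rfl | ⟨d, hd, rfl⟩
        · exact absurd hvA (G.xo r' hr' hr0 hr1)
        · exact absurd hvA (G.yo r' hr' hr0 hr1)
        · have c1 := G.li d hd r' hr'
          have c2 := List.count_pos_iff.2 hvA
          rw [c1] at c2
          refine ⟨?_, d, hd, rfl⟩
          split_ifs at c2 with h
          · rcases h with h | h
            · exact absurd h hr1
            · omega
          · omega
      obtain ⟨Ra, Rb, Rc, hR⟩ := hbf
      refine main Ra (Rb ++ r' :: Rc) hR (fun v hv hl => ?_)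
      obtain ⟨k1, k2, d, hd, k3⟩ := key v hv hl
      refine ⟨?_, k1, r', List.mem_append_right _ List.mem_cons_self, a, b, hAr⟩
      intro u hu hul
      obtain ⟨-, k4, d', hd', k5⟩ := key u hu hul
      clear hul hl hvl
      have e5 : (v - 1) / 3 = (u - 1) / 3 := Nat.add_right_cancel (k2.symm.trans k4)
      rw [k3, k5] at e5 ⊢
      rw [Nat.add_sub_cancel, Nat.add_sub_cancel, Nat.mul_div_cancel_left _ (by decide),
        Nat.mul_div_cancel_left _ (by decide)] at e5
      rw [e5]
    · exfalso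
      apply (cnt v hv hvl).2.2
      rw [hab]
      exact List.mem_append_right _ (List.mem_append_left _ hvL)
  · obtain ⟨R1, R2, hR⟩ := List.append_of_mem hm1
    exact main R1 R2 hR (fun v hv hl => absurd ⟨v, hv, hl⟩ hex)

end Pool.Agent.MWFE.H76
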